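import Pool.Agent.H42.Cyl.Main

set_option autoImplicit false

/-!
The root lemma on a finite set `Y`: strict (Pairs) and (P4Split) inside `Y` give a constant row.
-/

namespace Pool.Agent.H42.Q

open Pool.Agent.H17.P3

variable {X : Type}

/-- no induced path inside `Y` -/
theorem no_p4 (M : X → X → ZMod 2) (hs : ∀ x y, M x y = M y x) (Y : Finset X)
    (hp : ∀ u ∈ Y, ∀ v ∈ Y, M u u = M v v → M u v ≠ M u u →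
      ∃ g ∈ Y, M g g ≠ M u u ∧ M g u = M g g ∧ M g v = M g g ∧
        ∀ x ∈ Y, M u x = M v x → M g x = M u x)
    (hq : ∀ a ∈ Y, ∀ b ∈ Y, ∀ c ∈ Y, ∀ d ∈ Y, IsP4 M a b c d →
      M a a = 0 → M b b = 1 → M c c = 1 → M d d = 0 →
      ∃ g ∈ Y, Bad M a b c d g ∧
        ∀ y ∈ Y, M a y = M b y → M a y = M c y → M a y = M d y → M g y = M a y) :
    ∀ a ∈ Y, ∀ b ∈ Y, ∀ c ∈ Y, ∀ d ∈ Y, ¬ IsP4 M a b c d := by
  have hP : Pairs (fun x y : {x // x ∈ Y} => M x y) := by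
    intro u v h1 h2
    obtain ⟨g, hg, h3, h4, h5, h6⟩ := hp u u.2 v v.2 h1 h2
    exact ⟨⟨g, hg⟩, h3, h4, h5, fun x => h6 x x.2⟩
  have hQ : P4Split (fun x y : {x // x ∈ Y} => M x y) := by
    intro a b c d h1 h2 h3 h4 h5
    obtain ⟨g, hg, h6, h7⟩ := hq a a.2 b b.2 c c.2 d d.2 ⟨h1.ab, h1.bc, h1.cd, h1.ac, h1.ad, h1.bd⟩
      h2 h3 h4 h5
    exact ⟨⟨g, hg⟩, h6, fun y => h7 y y.2⟩
  intro a ha b hb c hc d hd h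
  exact Pool.Agent.H42.Cyl.p3 {x // x ∈ Y} _ (fun x y => hs x y) hP hQ ⟨a, ha⟩ ⟨b, hb⟩ ⟨c, hc⟩
    ⟨d, hd⟩ ⟨h.ab, h.bc, h.cd, h.ac, h.ad, h.bd⟩

/-- **the root lemma on `Y`** -/
theorem root_of (M : X → X → ZMod 2) (hs : ∀ x y, M x y = M y x) (Y : Finset X)
    (hY : Y.Nonempty)
    (hp : ∀ u ∈ Y, ∀ v ∈ Y, M u u = M v v → M u v ≠ M u u →
      ∃ g ∈ Y, M g g ≠ M u u ∧ M g u = M g g ∧ M g v = M g g ∧
        ∀ x ∈ Y, M u x = M v x → M g x = M u x)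
    (hq : ∀ a ∈ Y, ∀ b ∈ Y, ∀ c ∈ Y, ∀ d ∈ Y, IsP4 M a b c d →
      M a a = 0 → M b b = 1 → M c c = 1 → M d d = 0 →
      ∃ g ∈ Y, Bad M a b c d g ∧
        ∀ y ∈ Y, M a y = M b y → M a y = M c y → M a y = M d y → M g y = M a y) :
    ∃ r ∈ Y, ∃ l, ∀ y ∈ Y, M r y = l := by
  classical
  have e01 : ∀ x : ZMod 2, x ≠ 1 → x = 0 := by decide
  have eqiff : ∀ x y : ZMod 2, x = y ↔ (x = 1 ↔ y = 1) := by decide
  obtain ⟨y0, hy0⟩ := hY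
  have h := Pool.Agent.H42.Cyl.const_of (fun x y : {x // x ∈ Y} => M x y = 1)
    (fun x y h => by rw [hs y x]; exact h) Finset.univ ⟨⟨y0, hy0⟩, Finset.mem_univ _⟩ ?_ ?_
  · rcases h with ⟨x, -, h⟩ | ⟨x, -, h⟩
    · exact ⟨x, x.2, 0, fun y hy => e01 _ (h ⟨y, hy⟩ (Finset.mem_univ _))⟩
    · exact ⟨x, x.2, 1, fun y hy => h ⟨y, hy⟩ (Finset.mem_univ _)⟩
  · intro a _ b _ c _ d _ h
    exact no_p4 M hs Y hp hq a a.2 b b.2 c c.2 d d.2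
      ⟨h.1, h.2.1, h.2.2.1, e01 _ h.2.2.2.1, e01 _ h.2.2.2.2.1, e01 _ h.2.2.2.2.2⟩
  · intro u _ v _ h1 h2
    obtain ⟨g, hg, h3, h4, h5, h6⟩ := hp u u.2 v v.2 ((eqiff _ _).2 h1)
      (fun h => h2 ((eqiff _ _).1 h))
    exact ⟨⟨g, hg⟩, Finset.mem_univ _, fun h => h3 ((eqiff _ _).2 h), (eqiff _ _).1 h4,
      (eqiff _ _).1 h5, fun x hx => (eqiff _ _).1 (h6 x x.2 ((eqiff _ _).2 hx))⟩

end Pool.Agent.H42.Q
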